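import Pool.Agent.H91.Kothe

set_option autoImplicit false

open H91.Kothe in
theorem Pool.Agent.Results.MP_07c133_an.NotNuclear.result :
    ∃ (I : Type) (P : ℕ → I → NNReal), (∀ i, ∃ n, 0 < P n i) ∧
    (∀ m n, ∃ k, P m ≤ P k ∧ P n ≤ P k) ∧
    (∀ a ∈ H91.Kothe.lam P, ∀ b ∈ H91.Kothe.lam P, a * b ∈ H91.Kothe.lam P) ∧
    H91.Kothe.AC P ∧ ¬ H91.Kothe.Nuclear (H91.Kothe.Lam P) :=
  main
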